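import Pool.Agent.H17.SD.Targets

/-!
# MP_70ba79_ag, THEOREM S, chapter 1, row PHI: points of the normalisation
-/

set_option autoImplicit false

open MvPolynomial SC Pool.Agent.H27.LV
open Pool.Agent.H92.SF Pool.Agent.H3.SF Pool.Agent.H17.SD

namespace Pool.Agent.H30.SFG

theorem pf_PHI : T_PHI := by
  classical
  intro k F σ K _ _ _ _ _ _ _ X u θ dd J _ hP x hx c hc hJ
  have hx' : ∀ f g : MvPolynomial σ k, aeval X f = aeval X g → aeval x f = aeval x g := by
    intro f g h
    have h1 := hx (f - g) (by rw [map_sub, h, sub_self])
    rw [map_sub] at h1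
    exact sub_eq_zero.1 h1
  -- `k[u, θ]` is contained in `k[X]`
  have hspan : ∀ a ∈ Submodule.span k (Set.range X), a ∈ PA k X := by
    intro a ha
    exact (Submodule.span_le.2 Algebra.subset_adjoin :
      Submodule.span k (Set.range X) ≤ Subalgebra.toSubmodule (PA k X)) ha
  have hPB : PB k u θ ≤ PA k X := by
    apply Algebra.adjoin_le
    intro a ha
    rcases Set.mem_insert_iff.1 ha with h | ⟨l, h⟩
    · rw [h]
      exact hspan _ hP.tlin
    · rw [← h]
      exact hspan _ (hP.ulin l)
  have hex : ∀ b : Bb k u, ∃ f : MvPolynomial σ k, aeval X f = aeval u J * (b : F) := by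
    intro b
    have h1 : aeval u J * (b : F) ∈ PA k X := hPB (hP.JI b b.2)
    rw [PA, Algebra.adjoin_range_eq_range_aeval] at h1
    exact h1
  choose f hf using hex
  obtain ⟨g, hg⟩ : ∃ g : MvPolynomial σ k,
      g = aeval (fun l => ∑ s, C (c l s) * MvPolynomial.X s) J := ⟨_, rfl⟩
  have hg1 : aeval X g = aeval u J := by
    rw [hg, ← AlgHom.comp_apply, comp_aeval]
    congr 1
    apply algHom_ext
    intro l
    rw [aeval_X, aeval_X, map_sum, hc l]
    refine Finset.sum_congr rfl fun s _ => ?_
    rw [map_mul, aeval_C, aeval_X, Algebra.smul_def]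
  have hg2 : aeval x g = aeval (fun l => ∑ s, c l s • x s) J := by
    rw [hg, ← AlgHom.comp_apply, comp_aeval]
    congr 1
    apply algHom_ext
    intro l
    rw [aeval_X, aeval_X, map_sum]
    refine Finset.sum_congr rfl fun s _ => ?_
    rw [map_mul, aeval_C, aeval_X, Algebra.smul_def]
  have hj : aeval x g ≠ 0 := by
    rw [hg2]
    exact hJ
  let φ : Bb k u →ₐ[k] K :=
    { toFun := fun b => aeval x (f b) / aeval x g
      map_one' := by
        have h1 : aeval x (f 1) = aeval x g := by
          apply hx'
          rw [hf, hg1]
          simp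
        rw [h1, div_self hj]
      map_mul' := by
        intro a b
        have h1 : aeval x (g * f (a * b)) = aeval x (f a * f b) := by
          apply hx'
          rw [map_mul, map_mul, hf, hf, hf, hg1]
          push_cast
          ring
        rw [map_mul, map_mul] at h1
        rw [div_mul_div_comm, div_eq_div_iff hj (mul_ne_zero hj hj)]
        linear_combination (aeval x g) * h1
      map_zero' := by
        have h1 : aeval x (f 0) = aeval x (0 : MvPolynomial σ k) := by
          apply hx'
          rw [hf, map_zero]
          simp
        rw [h1, map_zero, zero_div]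
      map_add' := by
        intro a b
        have h1 : aeval x (f (a + b)) = aeval x (f a + f b) := by
          apply hx'
          rw [map_add, hf, hf, hf]
          push_cast
          ring
        rw [h1, map_add, add_div]
      commutes' := by
        intro r
        have h1 : aeval x (f (algebraMap k (Bb k u) r)) = aeval x (g * C r) := by
          apply hx'
          rw [map_mul, hf, hg1, aeval_C]
          rfl
        rw [h1, map_mul, aeval_C, mul_comm, mul_div_assoc, div_self hj, mul_one] }
  refine ⟨φ, fun s b hb => ?_⟩
  have h1 : aeval x (f b) = aeval x (g * MvPolynomial.X s) := by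
    apply hx'
    rw [map_mul, hf, hg1, aeval_X, hb]
  change aeval x (f b) / aeval x g = x s
  rw [h1, map_mul, aeval_X, mul_comm, mul_div_assoc, div_self hj, mul_one]

end Pool.Agent.H30.SFG
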